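import Mathlib

/-!
# A two-degenerate graph on five vertices with linearly many copies

`H` is `K_{2,3}` with one additional edge inside the class of size three. Every copy of `H` in a
two-degenerate graph is contained in a bounded neighbourhood (with respect to an elimination order)
of the image of the only vertex of degree two.
-/

set_option autoImplicit false

namespace Pool.Agent.Y857.KD

open Finset

/-- The elimination order. -/
theorem exists_order {n : ℕ} (G : SimpleGraph (Fin n)) (k : ℕ)
    (h : ∀ S : Finset (Fin n), S.Nonempty → ∃ v ∈ S, {w : Fin n | w ∈ S ∧ G.Adj v w}.ncard ≤ k)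
    (S : Finset (Fin n)) :
    ∃ r : Fin n → ℕ, Set.InjOn r S ∧
      ∀ v ∈ S, {w : Fin n | w ∈ S ∧ G.Adj v w ∧ r v < r w}.ncard ≤ k := by
  induction S using Finset.strongInduction with
  | H S ih =>
    rcases S.eq_empty_or_nonempty with rfl | hS
    · exact ⟨fun _ => 0, by simp, by simp⟩
    obtain ⟨v, hv, hk⟩ := h S hS
    obtain ⟨r, hr, hr2⟩ := ih (S.erase v) (Finset.erase_ssubset hv)
    refine ⟨fun w => if w = v then 0 else r w + 1, ?_, ?_⟩
    · intro a ha b hb hab
      simp only at hab
      by_cases h1 : a = v <;> by_cases h2 : b = v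
      · rw [h1, h2]
      · simp [h1, h2] at hab
      · simp [h1, h2] at hab
      · simp only [h1, h2, if_false, add_left_inj] at hab
        exact hr (by simp [h1]; exact_mod_cast ha) (by simp [h2]; exact_mod_cast hb) hab
    · intro u hu
      by_cases h1 : u = v
      · subst h1
        refine le_trans (Set.ncard_le_ncard ?_ (Set.toFinite _)) hk
        rintro w ⟨hw, hw2, -⟩
        exact ⟨hw, hw2⟩
      · refine le_trans (Set.ncard_le_ncard ?_ (Set.toFinite _))
          (hr2 u (Finset.mem_erase.2 ⟨h1, hu⟩))
        rintro w ⟨hw, hw2, hw3⟩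
        by_cases h2 : w = v
        · simp [h2] at hw3
        · simp only [h1, h2, if_false, add_lt_add_iff_right] at hw3
          exact ⟨Finset.mem_erase.2 ⟨h2, hw⟩, hw2, hw3⟩

/-- The adjacency of the graph. -/
def adjB (a b : Fin 5) : Bool :=
  ((a, b) ∈ [(0, 1), (0, 2), (1, 3), (1, 4), (2, 3), (2, 4), (3, 4),
    (1, 0), (2, 0), (3, 1), (4, 1), (3, 2), (4, 2), (4, 3)] : Bool)

/-- The graph. -/
def H : SimpleGraph (Fin 5) where
  Adj a b := adjB a b = true
  symm := ⟨by decide⟩
  loopless := ⟨by decide⟩

instance : DecidableRel H.Adj := fun a b => inferInstanceAs (Decidable (adjB a b = true))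

theorem H_degenerate (S : Finset (Fin 5)) (hS : S.Nonempty) :
    ∃ v ∈ S, {w : Fin 5 | w ∈ S ∧ H.Adj v w}.ncard ≤ 2 := by
  have key : ∀ S : Finset (Fin 5), S.Nonempty →
      ∃ v ∈ S, (S.filter (fun w => H.Adj v w)).card ≤ 2 := by decide
  obtain ⟨v, hv, h⟩ := key S hS
  refine ⟨v, hv, ?_⟩
  rw [← Set.ncard_coe_finset] at h
  simpa using h

theorem H_deg (u : Fin 5) (hu : u ≠ 0) : 3 ≤ (univ.filter (fun w => H.Adj u w)).card := by
  revert u; decide

section

variable {n : ℕ} (out : Fin n → Finset (Fin n))

/-- Points reachable in `i` steps. -/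
def R : ℕ → Fin n → Finset (Fin n)
  | 0, a => {a}
  | i + 1, a => R i a ∪ (R i a).biUnion out

theorem R_card (hout : ∀ a, (out a).card ≤ 2) (i : ℕ) (a : Fin n) : (R out i a).card ≤ 3 ^ i := by
  induction i with
  | zero => simp [R]
  | succ i ih =>
    calc (R out (i + 1) a).card ≤ (R out i a).card + ((R out i a).biUnion out).card :=
          Finset.card_union_le _ _
      _ ≤ (R out i a).card + (R out i a).card * 2 := by
          gcongr
          exact Finset.card_biUnion_le_card_mul _ _ _ (fun x _ => hout x)
      _ ≤ 3 ^ (i + 1) := by rw [pow_succ]; omega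

theorem R_mono {i j : ℕ} (hij : i ≤ j) (a : Fin n) : R out i a ⊆ R out j a := by
  induction hij with
  | refl => exact subset_rfl
  | step _ ih => exact ih.trans Finset.subset_union_left

theorem R_step {i : ℕ} {a b c : Fin n} (hb : b ∈ R out i a) (hc : c ∈ out b) :
    c ∈ R out (i + 1) a :=
  Finset.mem_union_right _ (Finset.mem_biUnion.2 ⟨b, hb, hc⟩)

end

theorem count_le {n : ℕ} (G : SimpleGraph (Fin n))
    (h : ∀ S : Finset (Fin n), S.Nonempty → ∃ v ∈ S, {w : Fin n | w ∈ S ∧ G.Adj v w}.ncard ≤ 2) :
    {φ : Fin 5 ↪ Fin n | ∀ u v, H.Adj u v → G.Adj (φ u) (φ v)}.ncard ≤ n * (3 ^ 5) ^ 5 := by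
  classical
  obtain ⟨r, hr, hr2⟩ := exists_order G 2 h univ
  have hinj : Function.Injective r := by
    intro a b hab
    exact hr (by simp) (by simp) hab
  set out : Fin n → Finset (Fin n) := fun a => univ.filter (fun w => G.Adj a w ∧ r a < r w) with hout
  have hc : ∀ a, (out a).card ≤ 2 := by
    intro a
    have := hr2 a (Finset.mem_univ _)
    rw [← Set.ncard_coe_finset]
    simpa [hout] using this
  -- every vertex of the copy is reachable
  have hreach : ∀ φ : Fin 5 ↪ Fin n, (∀ u v, H.Adj u v → G.Adj (φ u) (φ v)) →
      ∀ m : ℕ, ∀ u, (univ.filter (fun w => r (φ w) < r (φ u))).card ≤ m → φ u ∈ R out m (φ 0) := by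
    intro φ hφ m
    induction m with
    | zero =>
      intro u hu
      by_cases h0 : u = 0
      · subst h0; simp [R]
      · exfalso
        have h1 : ∀ w, ¬ r (φ w) < r (φ u) := by
          intro w hw
          have : (univ.filter (fun w => r (φ w) < r (φ u))).card = 0 := by omega
          rw [Finset.card_eq_zero] at this
          have h2 : w ∈ univ.filter (fun w => r (φ w) < r (φ u)) := by simp [hw]
          rw [this] at h2
          simp at h2
        have h3 : ((univ.filter (fun w => H.Adj u w)).map φ) ⊆ out (φ u) := by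
          intro x hx
          rw [Finset.mem_map] at hx
          obtain ⟨w, hw, rfl⟩ := hx
          rw [Finset.mem_filter] at hw
          have hne : φ w ≠ φ u := fun e => H.ne_of_adj hw.2 (φ.injective e).symm
          have hne2 : r (φ w) ≠ r (φ u) := fun e => hne (hinj e)
          have := h1 w
          simp only [hout, Finset.mem_filter, Finset.mem_univ, true_and]
          exact ⟨hφ _ _ hw.2, by omega⟩
        have h4 := Finset.card_le_card h3
        rw [Finset.card_map] at h4
        have := H_deg u h0
        have := hc (φ u)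
        omega
    | succ m ih =>
      intro u hu
      by_cases h0 : u = 0
      · subst h0
        exact R_mono out (Nat.zero_le _) _ (by simp [R])
      · by_cases hex : ∃ w, H.Adj u w ∧ r (φ w) < r (φ u)
        · obtain ⟨w, hw, hw2⟩ := hex
          have hlt : (univ.filter (fun z => r (φ z) < r (φ w))).card <
              (univ.filter (fun z => r (φ z) < r (φ u))).card := by
            apply Finset.card_lt_card
            rw [Finset.ssubset_iff_of_subset]
            · exact ⟨w, by simp [hw2], by simp⟩
            · intro z hz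
              simp only [Finset.mem_filter, Finset.mem_univ, true_and] at hz ⊢
              omega
          refine R_step out (ih w (by omega)) ?_
          simp only [hout, Finset.mem_filter, Finset.mem_univ, true_and]
          exact ⟨(hφ _ _ hw).symm, hw2⟩
        · exfalso
          have h1 : ∀ w, H.Adj u w → ¬ r (φ w) < r (φ u) := fun w hw hw2 => hex ⟨w, hw, hw2⟩
          have h3 : ((univ.filter (fun w => H.Adj u w)).map φ) ⊆ out (φ u) := by
            intro x hx
            rw [Finset.mem_map] at hx
            obtain ⟨w, hw, rfl⟩ := hx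
            rw [Finset.mem_filter] at hw
            have hne : φ w ≠ φ u := fun e => H.ne_of_adj hw.2 (φ.injective e).symm
            have hne2 : r (φ w) ≠ r (φ u) := fun e => hne (hinj e)
            have := h1 w hw.2
            simp only [hout, Finset.mem_filter, Finset.mem_univ, true_and]
            exact ⟨hφ _ _ hw.2, by omega⟩
          have h4 := Finset.card_le_card h3
          rw [Finset.card_map] at h4
          have := H_deg u h0
          have := hc (φ u)
          omega
  -- the count
  set B : Finset (Fin 5 → Fin n) :=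
    univ.biUnion (fun a : Fin n => Fintype.piFinset (fun _ : Fin 5 => R out 5 a)) with hB
  have hmaps : Set.MapsTo (fun φ : Fin 5 ↪ Fin n => (φ : Fin 5 → Fin n))
      {φ : Fin 5 ↪ Fin n | ∀ u v, H.Adj u v → G.Adj (φ u) (φ v)} (B : Set (Fin 5 → Fin n)) := by
    intro φ hφ
    simp only [hB, Finset.coe_biUnion, Set.mem_iUnion, Finset.mem_coe, Fintype.mem_piFinset]
    refine ⟨φ 0, Finset.mem_univ _, fun u => hreach φ hφ 5 u ?_⟩
    exact (Finset.card_le_univ _).trans (by simp)
  have h1 := Set.ncard_le_ncard_of_injOn (s := {φ : Fin 5 ↪ Fin n | ∀ u v, H.Adj u v → G.Adj (φ u) (φ v)})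
    (t := (B : Set (Fin 5 → Fin n))) (fun φ : Fin 5 ↪ Fin n => (φ : Fin 5 → Fin n)) hmaps
    (fun a _ b _ hab => DFunLike.coe_injective hab) (Set.toFinite _)
  rw [Set.ncard_coe_finset] at h1
  refine h1.trans ?_
  calc B.card ≤ ∑ a : Fin n, (Fintype.piFinset (fun _ : Fin 5 => R out 5 a)).card :=
        Finset.card_biUnion_le
    _ ≤ ∑ _a : Fin n, (3 ^ 5) ^ 5 := by
        apply Finset.sum_le_sum
        intro a _
        rw [Fintype.card_piFinset_const]
        exact Nat.pow_le_pow_left (R_card out hc 5 a) 5
    _ = n * (3 ^ 5) ^ 5 := by simp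

end Pool.Agent.Y857.KD
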